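import Pool.Agent.V8H90.FG.Low

/-!
MP_45e720_ag, Q1, for projective varieties `X` of dimension up to `n + 1` with a morphism to
projective `n`-space which has fibres of dimension at most one, and is ramified, with multiplicities
at least `m ≥ 2`, over general hypersurfaces of arbitrary degrees whose number is quadratic in `n`: if
all morphisms from elliptic curves (one-dimensional complex tori) to `X` are constant, then `X` is
Brody hyperbolic. In any case, every nonconstant entire curve in `X` is contained in a closed curve
which is rational or elliptic, and lies in a fibre.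

In these varieties there are rational and elliptic curves in general, and no condition on the
fibres, apart from their dimension, is needed. Examples: let `Y` be the smooth variety with the
equations `y i ^ μ i = F i (x)`, `i < q`, `μ i ≥ m`, in `P^(n+q)`, and let `X` be any smooth
hypersurface in `Y × P^2`, or in `Y × C` with a projective surface `C`, which does not contain a
fibre over `Y`; or any family of curves over `Y`. The morphism is `X → Y → P^n`.

The definitions are in `Pool/Agent/V8H90/FG/Low.lean` (`FibresLeOne`, `EllipticRigid`,
`IsClosure`), `Pool/Agent/V8H90/LG/Top.lean` (`SubVariety`), `Pool/Agent/V8H90/HY/Num.lean`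
(`ForGeneral`), `Pool/Agent/V8H90/HY/Geo.lean` (`RamF`), and in the starting files
`Pool/Agent/W601/SM/Var.lean` (`BiSet`: closed subsets `X` of the product of projective `N`-space and
projective `n`-space; the morphism is the second projection; `EntireCurve`: nonconstant entire curves
in `X`) and `Pool/Agent/Q103/SF/Defs2.lean` (`IsElliptic`).
-/

set_option autoImplicit false

namespace Pool.Agent.Results.MP_45e720_ag.CurveFibrations

open MvPolynomial Pool.Agent.V8H90.HY Pool.Agent.V8H90.JT Pool.Agent.W601.SM Pool.Agent.V8H90.FG
open Pool.Agent.Q103.SF (IsElliptic)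

/-- Let `n ≥ 1`, `m ≥ 2`, let `δ i ≥ 1`, `i < q`, be arbitrary degrees, and assume that
`2 n (2 n + 1) m² ≤ (m - 1)² (q - (2 n + 3))` (for `m = 2`: `q ≥ 16 n² + 10 n + 3` is enough). The
following holds for general forms `F i` of the degrees `δ i` in `n + 1` variables (that is, if a
certain polynomial in the coefficients of the forms, which does not vanish identically for forms of
these degrees, does not vanish for them).

Let `X` be a projective variety with a morphism to projective `n`-space which is ramified over
the hypersurfaces `F i = 0` with multiplicities at least `m`, and whose fibres have dimension at most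
one.

(a) Every nonconstant entire curve in `X` lies in a fibre, and its Zariski closure is a curve whose
function field is rational, or the function field of an elliptic curve.

(b) If every morphism from an elliptic curve to `X` is constant, then every holomorphic map from the
complex plane to `X` is constant. -/
theorem result :
    (∀ (n m q : ℕ) (δ : Fin q → ℕ), 1 ≤ n → 2 ≤ m → (∀ i, 1 ≤ δ i) →
      2 * n * (2 * n + 1) * m ^ 2 ≤ (m - 1) ^ 2 * (q - (2 * n + 3)) →
      ForGeneral (v := n) δ fun F =>
        ∀ (N : ℕ) (X : BiSet N n), RamF m F X → FibresLeOne X →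
          (∀ u v, X.EntireCurve u v → (∀ z z', ∃ t : ℂ, v z' = t • v z) ∧
            ∃ (L : Type) (_ : Field L) (_ : Algebra ℂ L) (z : Fin (N + 1) → L)
              (b : Fin (n + 1) → L), IsClosure X u v L z b ∧
              ((∃ t : L, IntermediateField.adjoin ℂ {t} = ⊤) ∨ IsElliptic L)) ∧
          (EllipticRigid X → ∀ u v, ¬ X.EntireCurve u v)) ∧
    ∀ n q : ℕ, 16 * n ^ 2 + 10 * n + 3 ≤ q →
      2 * n * (2 * n + 1) * 2 ^ 2 ≤ (2 - 1) ^ 2 * (q - (2 * n + 3)) := by
  refine ⟨fun n m q δ hn hm hδ h => ?_, fun n q h => ?_⟩
  · refine (const_general hn hm hδ h).mono fun F _ ⟨h1, _⟩ N X hX hf =>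
      ⟨fun u v hc => ⟨closed_curveF h1 hX hc, ?_⟩,
        fun hE u v hc => ell_of_curve hf hE hc (closed_curveF h1 hX hc)⟩
    obtain ⟨L, _, _, _, x, g1, -, g2⟩ := low_curve hf hc (closed_curveF h1 hX hc)
    exact ⟨L, _, _, x, _, g2, Pool.Agent.Q111.SF.cls L g1⟩
  · have e : 2 * n * (2 * n + 1) * 2 ^ 2 = 16 * n ^ 2 + 8 * n := by ring
    rw [e]
    omega

end Pool.Agent.Results.MP_45e720_ag.CurveFibrations
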