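import Pool.Agent.V8H90.HY.Geo

/-!
MP_45e720_ag, Q1: projective varieties with a morphism to projective `n`-space which is ramified,
with multiplicities at least `m ≥ 2`, over general hypersurfaces of arbitrary degrees whose number is
quadratic in `n`: all their entire curves lie in fibres of the morphism. If the fibres are finite,
the varieties are hyperbolic.

The definitions are in `Pool/Agent/V8H90/HY/Num.lean` (`ForGeneral`), `Pool/Agent/V8H90/HY/Geo.lean`
(`RamF`), `Pool/Agent/V8H90/JT/Geo.lean` (`FiniteFibres`), and in the starting file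
`Pool/Agent/W601/SM/Var.lean` (`BiSet`: closed subsets `X` of the product of projective `N`-space and
projective `n`-space; the morphism is the second projection; `EntireCurve`: nonconstant entire curves
in `X`).
-/

set_option autoImplicit false

namespace Pool.Agent.Results.MP_45e720_ag.GeneralHypersurfaceCovers

open MvPolynomial Pool.Agent.V8H90.HY Pool.Agent.V8H90.JT Pool.Agent.W601.SM

/-- (1) Let `n ≥ 1`, `m ≥ 2`, let `δ i ≥ 1`, `i < q`, be arbitrary degrees, and assume that
`2 n (2 n + 1) m² ≤ (m - 1)² (q - (2 n + 3))`. The following holds for general forms `F i` of the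
degrees `δ i` in `n + 1` variables (that is, if a certain polynomial in the coefficients of the
forms, which does not vanish identically for forms of these degrees, does not vanish for them).

(a) Every holomorphic map `f` from the complex plane to projective `n`-space which meets each of the
hypersurfaces `F i = 0`, wherever it does, with multiplicity at least `m` (or lies in it) is
constant.

(b) Let `X` be a projective variety with a morphism to projective `n`-space which is ramified over
the hypersurfaces with multiplicities at least `m`. Then every entire curve in `X` lies in a fibre.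
If the fibres are finite, there are no nonconstant entire curves in `X`.

(c) Let `δ i = μ i * w i` with `μ i ≥ m`. Then all entire curves in the variety with the equations
`y i ^ μ i = F i (x)`, `i < q`, in the weighted projective space with the coordinates
`x 0, ..., x n` of weight `1` and `y i` of weight `w i` are constant.

(d) These equations define a smooth variety of dimension `n` (a quasi-smooth one if there are weights
greater than `1`): their differentials are linearly independent at each point.

(2) For `m = 2` the inequality holds if `q ≥ 16 n² + 10 n + 3`. -/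
theorem result :
    (∀ (n m q : ℕ) (δ : Fin q → ℕ), 1 ≤ n → 2 ≤ m → (∀ i, 1 ≤ δ i) →
      2 * n * (2 * n + 1) * m ^ 2 ≤ (m - 1) ^ 2 * (q - (2 * n + 3)) →
      ForGeneral (v := n) δ fun F =>
        (∀ f : ℂ → Fin (n + 1) → ℂ, (∀ j, Differentiable ℂ fun z => f z j) → (∀ z, f z ≠ 0) →
          (∀ (i : Fin q) (z : ℂ) (a : ℕ),
            analyticOrderAt (fun t => eval (f t) (F i)) z = a → a = 0 ∨ m ≤ a) →
          ∀ z z', ∃ t : ℂ, f z' = t • f z) ∧
        (∀ (N : ℕ) (X : BiSet N n), RamF m F X →
          (∀ u v, X.EntireCurve u v → ∀ z z', ∃ t : ℂ, v z' = t • v z) ∧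
          (FiniteFibres X → ∀ u v, ¬ X.EntireCurve u v)) ∧
        (∀ μ w : Fin q → ℕ, (∀ i, m ≤ μ i) → (∀ i, μ i * w i = δ i) →
          (∀ (x : ℂ → Fin (n + 1) → ℂ) (y : ℂ → Fin q → ℂ),
            (∀ j, Differentiable ℂ fun z => x z j) → (∀ i, Differentiable ℂ fun z => y z i) →
            (∀ z, x z ≠ 0 ∨ y z ≠ 0) → (∀ z i, y z i ^ μ i = eval (x z) (F i)) →
            ∀ z z', ∃ t : ℂ, x z' = t • x z ∧ ∀ i, y z' i = t ^ w i * y z i) ∧
          ∀ (x : Fin (n + 1) → ℂ) (y : Fin q → ℂ), (x ≠ 0 ∨ y ≠ 0) →
            (∀ i, y i ^ μ i = eval x (F i)) → ∀ c : Fin q → ℂ,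
            (∀ l, ∑ i, c i * eval x (pderiv l (F i)) = 0) →
            (∀ i, c i * (μ i * y i ^ (μ i - 1)) = 0) → c = 0)) ∧
    ∀ n q : ℕ, 16 * n ^ 2 + 10 * n + 3 ≤ q →
      2 * n * (2 * n + 1) * 2 ^ 2 ≤ (2 - 1) ^ 2 * (q - (2 * n + 3)) := by
  refine ⟨fun n m q δ hn hm hδ h => ?_, fun n q h => ?_⟩
  · refine (const_general hn hm hδ h).mono fun F hF ⟨h1, h2⟩ => ⟨h1, fun N X hX =>
      ⟨fun u v h => closed_curveF h1 hX h, fun hf => no_closedF h1 hX hf⟩,
      fun μ w hμ hw => ⟨fun x y hx hy hnz hxy => cover_const h1 hF hδ (by omega) hμ hw hx hy hnz hxy,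
        fun x y hnz hxy c hc1 hc2 => h2 μ (fun i => by have := hμ i; omega) x y hnz hxy c hc1 hc2⟩⟩
  · have e : 2 * n * (2 * n + 1) * 2 ^ 2 = 16 * n ^ 2 + 8 * n := by ring
    rw [e]
    omega

end Pool.Agent.Results.MP_45e720_ag.GeneralHypersurfaceCovers
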