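import Pool.Agent.V8H90.JT.Geo

/-!
MP_45e720_ag, Q1: projective varieties with a morphism to projective `n`-space which is ramified,
with multiplicities at least `m ≥ 2`, over a number of generic hyperplanes which is quadratic in `n`
(or, for `m` large compared to `log n`, almost linear in `n`): all their entire curves lie in fibres
of the morphism. If the fibres are finite, the varieties are hyperbolic.

The definitions are in `Pool/Agent/V8H90/JT/Num.lean` (`Enough`), `Pool/Agent/V8H90/JT/Geo.lean`
(`Generic`, `RamifiedOver`, `FiniteFibres`), and in the starting file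
`Pool/Agent/W601/SM/Var.lean` (`BiSet`: closed subsets `X` of the product of projective `N`-space and
projective `n`-space; the morphism is the second projection; `EntireCurve`: nonconstant entire curves
in `X`).
-/

set_option autoImplicit false

namespace Pool.Agent.Results.MP_45e720_ag.GenericHyperplaneCovers

open Pool.Agent.V8H90.JT Pool.Agent.W601.SM

/-- (1) Let `Enough n m q` and let `ℓ i = 0`, `i < q`, be hyperplanes in projective `n`-space whose
coefficients are algebraically independent.

(a) Every holomorphic map `v` from the complex plane to projective `n`-space which meets each of the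
hyperplanes, wherever it does, with multiplicity at least `m` (or lies in it) is constant.

(b) Let `X` be a projective variety with a morphism to projective `n`-space which is ramified over
the hyperplanes with multiplicities at least `m`. Then every entire curve in `X` lies in a fibre. If
the fibres are finite, there are no nonconstant entire curves in `X`.

(c) Let `X` be the projective variety of the points `y` for which there is a vector `x` with
`y i ^ m = ℓ i (x)` for all `i`. Then all entire curves in `X` are constant.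

(2) `Enough n m q` holds if `n ≥ 1`, `m ≥ 2` and `4 m² n² + 2 n ≤ (m - 1)² (q - 3)`, for instance if
`m = 2` and `q ≥ 16 n² + 2 n + 3`; and it holds if there is `k ≥ 1` with `2 k ≤ m`,
`(k + 1) (n + 1) < 2 ^ k` and `3 (k + 1) (n + 1) < q`.

(3) For all `n` and `q` there are such hyperplanes. -/
theorem result :
    (∀ n m q : ℕ, Enough n m q → ∀ ℓ : Fin q → Fin (n + 1) → ℂ, Generic ℓ →
      (∀ v : ℂ → Fin (n + 1) → ℂ, (∀ j, Differentiable ℂ fun z => v z j) → (∀ z, v z ≠ 0) →
        (∀ (i : Fin q) (z : ℂ) (a : ℕ),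
          analyticOrderAt (fun w => ∑ j, ℓ i j * v w j) z = a → a = 0 ∨ m ≤ a) →
        ∀ z z', ∃ t : ℂ, v z' = t • v z) ∧
      (∀ (N : ℕ) (X : BiSet N n), RamifiedOver m ℓ X →
        (∀ u v, X.EntireCurve u v → ∀ z z', ∃ t : ℂ, v z' = t • v z) ∧
        (FiniteFibres X → ∀ u v, ¬ X.EntireCurve u v)) ∧
      (∀ f : ℂ → Fin q → ℂ, Differentiable ℂ f → (∀ z, f z ≠ 0) →
        (∀ z, ∃ x : Fin (n + 1) → ℂ, ∀ i, f z i ^ m = ∑ j, ℓ i j * x j) →
        ∀ z z', ∃ t : ℂ, f z = t • f z')) ∧
    (∀ n m q : ℕ, 1 ≤ n → 2 ≤ m → 4 * m ^ 2 * n ^ 2 + 2 * n ≤ (m - 1) ^ 2 * (q - 3) →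
      Enough n m q) ∧
    (∀ n q : ℕ, 1 ≤ n → 16 * n ^ 2 + 2 * n + 3 ≤ q → Enough n 2 q) ∧
    (∀ n m k q : ℕ, 1 ≤ k → 2 * k ≤ m → (k + 1) * (n + 1) < 2 ^ k →
      3 * ((k + 1) * (n + 1)) < q → Enough n m q) ∧
    ∀ n q : ℕ, ∃ ℓ : Fin q → Fin (n + 1) → ℂ, Generic ℓ := by
  refine ⟨fun n m q hE ℓ hℓ => ⟨fun v hv hnz h => orb_const hE hℓ hv hnz h,
    fun N X hX => ⟨fun u v h => closed_curve hE hℓ hX h, fun hf => no_closed hE hℓ hX hf⟩,
    fun f hf hnz h => kummer_const (enough_pos hE) hE hℓ hf hnz h⟩,
    fun n m q hn hm h => enough_one hn hm h, fun n q hn h => enough_one hn le_rfl ?_,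
    fun n m k q hk hm h1 h2 => enough_log hk hm h1 h2, exists_generic⟩
  have e : 4 * 2 ^ 2 * n ^ 2 + 2 * n = 16 * n ^ 2 + 2 * n := by ring
  rw [e]
  omega

end Pool.Agent.Results.MP_45e720_ag.GenericHyperplaneCovers
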