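import Mathlib
import Pool.Agent.V8H29.EN4

/-!
MP_45e720_ag, Q1 for the entire curves whose homogeneous coordinates lie in the ring generated by
the entire functions without zeros and the entire functions of finite order (or of order less
than `ρ`, or the polynomials).
-/

set_option autoImplicit false

namespace Pool.Agent.Results.MP_45e720_ag.ZeroFreeSums

open MvPolynomial
open Pool.Agent.V8H29.FS (RatCurvesIn)
open Pool.Agent.V8H29.EN
open Pool.Agent.TH182.TC (TorusRigid EllipticRigid)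

/-- (a) Let `X = {F1 = 0}` and `Z = {F2 = 0}` be closed subsets of projective space over `ℂ`. The
nonconstant rational curves of `X` lie in `Z` if and only if every entire curve in `X`, not
contained in `Z`, whose coordinates lie in the ring generated by the zero-free entire functions
and the entire functions of finite order is a curve of finite order, and if and only if the same
holds for other classes of coefficients.
(b) If every holomorphic map from a one-dimensional complex torus to `X = {F = 0}` is constant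
(in particular if every holomorphic map from a complex torus to `X` is constant), then these
properties hold for `X` with `Z` empty. -/
theorem result (n : ℕ) :
    (∀ F1 F2 : Set (MvPolynomial (Fin (n + 1)) ℂ), (∀ F ∈ F1, ∃ e, F.IsHomogeneous e) →
      (∀ F ∈ F2, ∃ e, F.IsHomogeneous e) →
      [RatCurvesIn F1 F2,
        ∀ ρ, 0 < ρ → ∀ A : Subalgebra ℂ (ℂ → ℂ), Good ρ A → ∀ f : Fin (n + 1) → ℂ → ℂ,
          (∀ i, f i ∈ zfRing A) → InX F1 f → NotIn F2 f → PropTo A f,
        ∀ ρ, ∀ hρ : 0 < ρ, ∀ f : Fin (n + 1) → ℂ → ℂ,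
          (∀ i, f i ∈ zfRing (ordRing ρ hρ)) → InX F1 f → NotIn F2 f → PropTo (ordRing ρ hρ) f,
        ∃ ρ, ∃ hρ : 0 < ρ, ∀ f : Fin (n + 1) → ℂ → ℂ,
          (∀ i, f i ∈ zfRing (ordRing ρ hρ)) → InX F1 f → NotIn F2 f → PropTo (ordRing ρ hρ) f,
        ∀ f : Fin (n + 1) → ℂ → ℂ, (∀ i, f i ∈ zfRing finRing) → InX F1 f → NotIn F2 f →
          PropTo finRing f,
        ∀ f : Fin (n + 1) → ℂ → ℂ, (∀ i, f i ∈ zfRing polyFun) → InX F1 f → NotIn F2 f →
          ConstCurve f,
        ∀ f : Fin (n + 1) → ℂ → ℂ, (∀ i, f i ∈ zfRing ⊥) → InX F1 f → NotIn F2 f →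
          ConstCurve f].TFAE) ∧
    ∀ (ι : Type) (F : ι → MvPolynomial (Fin (n + 1)) ℂ), (∀ i, ∃ d, (F i).IsHomogeneous d) →
      (TorusRigid F → EllipticRigid F) ∧ (EllipticRigid F →
        (∀ ρ, 0 < ρ → ∀ A : Subalgebra ℂ (ℂ → ℂ), Good ρ A → ∀ f : Fin (n + 1) → ℂ → ℂ,
          (∀ i, f i ∈ zfRing A) → InX (Set.range F) f → (∃ i z, f i z ≠ 0) → PropTo A f) ∧
        (∀ f : Fin (n + 1) → ℂ → ℂ, (∀ i, f i ∈ zfRing finRing) → InX (Set.range F) f →
          (∃ i z, f i z ≠ 0) → PropTo finRing f) ∧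
        ∀ f : Fin (n + 1) → ℂ → ℂ, (∀ i, f i ∈ zfRing polyFun) → InX (Set.range F) f →
          ConstCurve f) := by
  refine ⟨fun F1 F2 hF1 hF2 => tfae_en F1 F2 hF1 hF2, fun ι F hF => ⟨fun h => h.elliptic,
    fun hX => ?_⟩⟩
  have hF1 : ∀ G ∈ Set.range F, ∃ e, G.IsHomogeneous e := by
    rintro _ ⟨i, rfl⟩
    exact hF i
  have hF2 : ∀ G ∈ ({1} : Set (MvPolynomial (Fin (n + 1)) ℂ)), ∃ e, G.IsHomogeneous e := by
    intro G hG
    rw [Set.mem_singleton_iff] at hG
    subst hG
    exact ⟨0, isHomogeneous_one _ _⟩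
  have h1 := rat_of_rigid hF hX {1}
  have hN : ∀ f : Fin (n + 1) → ℂ → ℂ, (∃ i z, f i z ≠ 0) →
      NotIn ({1} : Set (MvPolynomial (Fin (n + 1)) ℂ)) f := by
    rintro f ⟨i, z, h⟩
    exact ⟨z, ⟨i, h⟩, 1, rfl, by rw [map_one]; exact one_ne_zero⟩
  have h2 := tfae_en (Set.range F) {1} hF1 hF2
  have e1 := h2.out 0 1
  have e4 := h2.out 0 4
  have e5 := h2.out 0 5
  refine ⟨fun ρ hρ A hA f hf hfX h0 => e1.1 h1 ρ hρ A hA f hf hfX (hN f h0),
    fun f hf hfX h0 => e4.1 h1 f hf hfX (hN f h0), fun f hf hfX => ?_⟩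
  by_cases h0 : ∃ i z, f i z ≠ 0
  · exact e5.1 h1 f hf hfX (hN f h0)
  · push Not at h0
    intro i j z z'
    simp [h0]

end Pool.Agent.Results.MP_45e720_ag.ZeroFreeSums
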